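import Pool.Agent.Helper95.GB.KL.Defs

/-! # GB/KL/Coef: polynomials in one variable (stub, prove in place)

`coef`: let `E` be finite and `se st e p = p` for all `e ≠ st`.  Composing the substitutions `se st e` over all
`e ≠ st` (a list of all elements of `E`) one gets `p = aeval (fun _ => X st) p`, which is a polynomial in `X st`:
`p = ∑ m ∈ range N, C (c m) * X st ^ m` with `c m = ∑ over the monomials M of p of degree m of coeff M p`.
A convenient choice of `c`: `c m = (Polynomial.coeff (aeval (fun _ => Polynomial.X) p) m)` and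
`N = natDegree + 1`; this choice is additive in `p`, see `coefFun`.

`harm`: let `ω : J → ℤ` with `∑ k, lam e k * ω k = 0` for all `e ≠ st`.  Since `∑ e, lam e k = 0` for each `k`, the
same holds for `e = st`; and `∑ k, ω k * (u (ed k) - u (be (vt k))) = ∑ e, u e * ∑ k, lam e k * ω k = 0`.
-/

set_option autoImplicit false

namespace GB

open MvPolynomial

/-- coefficient of degree `m` after substituting one variable for all -/
noncomputable def coefFun {E : Type} (m : ℕ) (p : MvPolynomial E ℤ) : ℤ :=
  (aeval (fun _ => (Polynomial.X : Polynomial ℤ)) p).coeff m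

theorem coefFun_add {E : Type} (m : ℕ) (p p' : MvPolynomial E ℤ) :
    coefFun m (p + p') = coefFun m p + coefFun m p' := by
  simp [coefFun]

theorem coefFun_C_mul {E : Type} (m : ℕ) (n : ℤ) (p : MvPolynomial E ℤ) :
    coefFun m (C n * p) = n * coefFun m p := by
  simp only [coefFun, map_mul, aeval_C, Polynomial.algebraMap_eq, Polynomial.coeff_C_mul]

/-- the linear forms `X e - X e'` become zero -/
theorem coefFun_diff_mul {E : Type} (m : ℕ) (e e' : E) (p : MvPolynomial E ℤ) :
    coefFun m ((X e - X e') * p) = 0 := by
  simp [coefFun]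

theorem coefFun_C_mul_pow {E : Type} (m l : ℕ) (n : ℤ) (e : E) :
    coefFun m (C n * X e ^ l : MvPolynomial E ℤ) = if l = m then n else 0 := by
  rw [coefFun_C_mul]
  simp only [coefFun, map_pow, aeval_X, Polynomial.coeff_X_pow]
  by_cases h : l = m
  · simp [h]
  · have h' : m ≠ l := fun hh => h hh.symm
    simp [h, h']

theorem coefFun_bound {E : Type} (p : MvPolynomial E ℤ) :
    ∃ N, ∀ m, N ≤ m → coefFun m p = 0 :=
  ⟨(aeval (fun _ => (Polynomial.X : Polynomial ℤ)) p).natDegree + 1, fun m hm =>
    Polynomial.coeff_eq_zero_of_natDegree_lt (by omega)⟩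

theorem DG.coef {E : Type} [Fintype E] (st : E) (p : MvPolynomial E ℤ)
    (h : ∀ e, e ≠ st → DG.se st e p = p) (N : ℕ) (hN : ∀ m, N ≤ m → coefFun m p = 0) :
    p = ∑ m ∈ Finset.range N, C (coefFun m p) * X st ^ m := by
  classical
  have key : ∀ s : Finset E, st ∉ s →
      aeval (fun e' => if e' ∈ s then (X st : MvPolynomial E ℤ) else X e') p = p := by
    intro s
    induction s using Finset.induction_on with
    | empty =>
      intro _
      simp
    | insert a s ha ih =>
      intro hst
      have hast : a ≠ st := fun hh => hst (by simp [hh])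
      have hs : st ∉ s := fun hh => hst (by simp [hh])
      have h1 := ih hs
      have h2 := h a hast
      have h3 : (aeval (fun e' => if e' ∈ insert a s then (X st : MvPolynomial E ℤ) else X e') :
          MvPolynomial E ℤ →ₐ[ℤ] MvPolynomial E ℤ) =
          (aeval (fun e' => if e' ∈ s then (X st : MvPolynomial E ℤ) else X e')).comp
            (DG.se st a) := by
        apply MvPolynomial.algHom_ext
        intro e'
        rw [AlgHom.comp_apply]
        unfold DG.se
        rw [aeval_X, aeval_X]
        by_cases he : e' = a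
        · subst he
          simp [hs]
        · simp [he]
      rw [h3, AlgHom.comp_apply, h2, h1]
  have h1 := key (Finset.univ.erase st) (by simp)
  have h2 : (aeval (fun e' => if e' ∈ Finset.univ.erase st then (X st : MvPolynomial E ℤ) else X e') :
      MvPolynomial E ℤ →ₐ[ℤ] MvPolynomial E ℤ) =
      (Polynomial.aeval (X st : MvPolynomial E ℤ)).comp
        (((aeval (fun _ : E => (Polynomial.X : Polynomial ℤ))) :
          MvPolynomial E ℤ →ₐ[ℤ] Polynomial ℤ)) := by
    apply MvPolynomial.algHom_ext
    intro e'
    rw [AlgHom.comp_apply, aeval_X, aeval_X, Polynomial.aeval_X]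
    by_cases he : e' = st
    · simp [he]
    · simp [he]
  rw [h2, AlgHom.comp_apply] at h1
  set P : Polynomial ℤ := aeval (fun _ : E => (Polynomial.X : Polynomial ℤ)) p with hP
  have hcf : ∀ m, coefFun m p = P.coeff m := fun m => rfl
  simp only [hcf] at hN ⊢
  by_cases hP0 : P = 0
  · rw [hP0] at h1 ⊢
    simp only [map_zero] at h1
    simp [← h1]
  · have hdeg : P.natDegree < N := by
      by_contra hcon
      have := hN P.natDegree (by omega)
      exact hP0 (Polynomial.leadingCoeff_eq_zero.mp this)
    rw [Polynomial.aeval_eq_sum_range' hdeg] at h1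
    conv_lhs => rw [← h1]
    apply Finset.sum_congr rfl
    intro m _
    rw [MvPolynomial.smul_eq_C_mul]

theorem DG.harm {V J E : Type} [Fintype J] [Fintype E] (S : DG V J E) (st : E) (ω : J → ℤ)
    (h : ∀ e, e ≠ st → ∑ k, S.lam e k * ω k = 0) : S.Harm1 ω := by
  classical
  have hl : ∀ (u : E → ℤ) (k : J), ∑ e, u e * S.lam e k = u (S.ed k) - u (S.be (S.vt k)) := by
    intro u k
    simp only [DG.lam, mul_sub, Finset.sum_sub_distrib, mul_ite, mul_one, mul_zero]
    simp
  have h0 : ∀ k, ∑ e, S.lam e k = 0 := by
    intro k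
    have := hl (fun _ => 1) k
    simpa using this
  have hst : ∑ k, S.lam st k * ω k = 0 := by
    have h1 : ∑ e, ∑ k, S.lam e k * ω k = 0 := by
      rw [Finset.sum_comm]
      apply Finset.sum_eq_zero
      intro k _
      rw [← Finset.sum_mul, h0, zero_mul]
    rw [← Finset.add_sum_erase _ _ (Finset.mem_univ st)] at h1
    rw [Finset.sum_eq_zero (s := Finset.univ.erase st)] at h1
    · simpa using h1
    · intro e he
      exact h e (Finset.ne_of_mem_erase he)
  have hall : ∀ e, ∑ k, S.lam e k * ω k = 0 := by
    intro e
    by_cases he : e = st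
    · rw [he]; exact hst
    · exact h e he
  intro u
  have h2 : ∀ k, ω k * (u (S.ed k) - u (S.be (S.vt k))) = ∑ e, u e * (S.lam e k * ω k) := by
    intro k
    rw [← hl u k, Finset.mul_sum]
    apply Finset.sum_congr rfl
    intro e _
    ring
  simp only [h2]
  rw [Finset.sum_comm]
  apply Finset.sum_eq_zero
  intro e _
  rw [← Finset.mul_sum, hall e, mul_zero]

end GB
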