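import Pool.Agent.Helper95.GB.KL.Step3
import Pool.Agent.Helper95.GB.KL.Coef

/-! # GB/KL/KL3: exactness of the Koszul complex in degree 3 (stub, prove in place)

Proof.  Exactly as `KL2`, with `step3` instead of `step2`: by induction on a finite set of `e ≠ st` one reaches
`x = x' + (∑ l, th l * z l ...)` with `se st e x' = x'` and `∑ i, C (lam e i) * x' i j k = 0` for all `e ≠ st`; then
`τ m i j k = coefFun m (x' i j k)`.
-/

set_option autoImplicit false

namespace GB

open MvPolynomial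

theorem DG.KL3_iter {V J E : Type} [Fintype J] (S : DG V J E) (st : E)
    (q : E → J → ℤ) (hq : S.Qdata st q) (T : Finset E) : st ∉ T →
    ∀ x : J → J → J → MvPolynomial E ℤ, Alt3 x → (∀ i j, ∑ k, S.th k * x k i j = 0) →
    ∃ (x' : J → J → J → MvPolynomial E ℤ) (z : J → J → J → J → MvPolynomial E ℤ),
      Alt3 x' ∧ Alt4 z ∧ (∀ i j, ∑ k, S.th k * x' k i j = 0) ∧
      (∀ i j k, x i j k = x' i j k + ∑ l, S.th l * z l i j k) ∧
      ∀ e ∈ T, (∀ i j k, se st e (x' i j k) = x' i j k) ∧
        (∀ j k, ∑ i, C (S.lam e i) * x' i j k = 0) := by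
  classical
  induction T using Finset.induction_on with
  | empty =>
    intro _ x hx hc
    refine ⟨x, fun _ _ _ _ => 0, hx, ⟨fun i j k l => by simp, fun i j k l => by simp,
      fun i j k l => by simp⟩, hc, fun i j k => by simp, fun e he => by simp at he⟩
  | insert a T ha ih =>
    intro hst x hx hc
    have hast : a ≠ st := fun hh => hst (by simp [hh])
    have hs : st ∉ T := fun hh => hst (by simp [hh])
    obtain ⟨x₁, y₁, hx₁, hy₁, hc₁, hd₁, hT₁⟩ := ih hs x hx hc
    obtain ⟨x₂, y₂, hx₂, hy₂, hc₂, hd₂, hs₂, hl₂, hT₂⟩ := S.step3 st q hq a hast x₁ hx₁ hc₁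
    refine ⟨x₂, fun i j k l => y₁ i j k l + y₂ i j k l, hx₂,
      ⟨fun i j k l => ?_, fun i j k l => ?_, fun i j k l => ?_⟩, hc₂,
      fun i j k => ?_, fun e he => ?_⟩
    · simp only [hy₁.1 i j k l, hy₂.1 i j k l]
      ring
    · simp only [hy₁.2.1 i j k l, hy₂.2.1 i j k l]
      ring
    · simp only [hy₁.2.2 i j k l, hy₂.2.2 i j k l]
      ring
    · rw [hd₁, hd₂]
      simp only [mul_add, Finset.sum_add_distrib]
      ring
    · rw [Finset.mem_insert] at he
      rcases he with rfl | he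
      · exact ⟨hs₂, hl₂⟩
      · exact hT₂ e (fun hh => hs (hh ▸ he)) (hT₁ e he).1 (hT₁ e he).2

theorem DG.KL3 {V J E : Type} [Fintype J] [Fintype E] (S : DG V J E) (st : E) (q : E → J → ℤ)
    (hq : S.Qdata st q) (x : J → J → J → MvPolynomial E ℤ) (hx : Alt3 x)
    (hc : ∀ i j, ∑ k, S.th k * x k i j = 0) :
    ∃ (z : J → J → J → J → MvPolynomial E ℤ) (N : ℕ) (τ : ℕ → J → J → J → ℤ), Alt4 z ∧
      (∀ m, Alt3 (τ m) ∧ S.Harm3 (τ m)) ∧
      ∀ i j k, x i j k = ∑ l, S.th l * z l i j k +
        ∑ m ∈ Finset.range N, C (τ m i j k) * X st ^ m := by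
  classical
  obtain ⟨x', y, hx', hy, -, hd, hT⟩ :=
    S.KL3_iter st q hq (Finset.univ.erase st) (by simp) x hx hc
  have hT' : ∀ e, e ≠ st → (∀ i j k, se st e (x' i j k) = x' i j k) ∧
      (∀ j k, ∑ i, C (S.lam e i) * x' i j k = 0) := fun e he => hT e (by simp [he])
  choose M hM using fun ij : J × J × J => coefFun_bound (x' ij.1 ij.2.1 ij.2.2)
  have hneg : ∀ m (p : MvPolynomial E ℤ), coefFun m (-p) = - coefFun m p := by
    intro m p
    have := coefFun_C_mul m (-1) p
    rw [show (C (-1 : ℤ) : MvPolynomial E ℤ) * p = -p by simp] at this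
    rw [this]; ring
  have hzero : ∀ m, coefFun m (0 : MvPolynomial E ℤ) = 0 := by
    intro m
    have := coefFun_C_mul m 0 (0 : MvPolynomial E ℤ)
    simpa using this
  have hsum : ∀ m (f : J → MvPolynomial E ℤ), coefFun m (∑ i, f i) = ∑ i, coefFun m (f i) := by
    intro m f
    let φ : MvPolynomial E ℤ →+ ℤ :=
      { toFun := coefFun m, map_zero' := hzero m, map_add' := coefFun_add m }
    exact map_sum φ f _
  refine ⟨y, ∑ ij : J × J × J, M ij, fun m i j k => coefFun m (x' i j k), hy,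
    fun m => ⟨⟨?_, ?_⟩, ?_⟩, fun i j k => ?_⟩
  · intro i j k
    change coefFun m (x' j i k) = - coefFun m (x' i j k)
    rw [hx'.1 i j k, hneg]
  · intro i j k
    change coefFun m (x' i k j) = - coefFun m (x' i j k)
    rw [hx'.2 i j k, hneg]
  · intro j k
    apply S.harm st
    intro e he
    have h1 := congrArg (coefFun m) ((hT' e he).2 j k)
    rw [hsum, hzero] at h1
    rw [← h1]
    refine Finset.sum_congr rfl fun i _ => ?_
    rw [coefFun_C_mul]
  · rw [hd i j k, add_comm]
    congr 1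
    apply DG.coef st (x' i j k) (fun e he => (hT' e he).1 i j k)
    intro m hm
    refine hM (i, j, k) m (le_trans ?_ hm)
    exact Finset.single_le_sum (f := M) (fun _ _ => Nat.zero_le _) (Finset.mem_univ (i, j, k))

end GB
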