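import Pool.Agent.Helper95.GB.Iface

/-! # GB/KL: definitions for the Koszul block -/

set_option autoImplicit false

namespace GB

open MvPolynomial

namespace DG

variable {V J E : Type} (S : DG V J E)

/-- coefficient of `X e` in `th k` -/
noncomputable def lam (e : E) (k : J) : ℤ := by
  classical exact (if S.ed k = e then 1 else 0) - (if S.be (S.vt k) = e then 1 else 0)

/-- the substitution `X e ↦ X st` -/
noncomputable def se (st e : E) : MvPolynomial E ℤ →ₐ[ℤ] MvPolynomial E ℤ := by
  classical exact aeval (fun e' => if e' = e then X st else X e')

end DG

end GB
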