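import Pool.Agent.Helper95.GB.KL.Step2
import Pool.Agent.Helper95.GB.KL.Coef

/-! # GB/KL/KL2: exactness of the Koszul complex in degree 2 (stub, prove in place)

Proof.  By induction on a finite set `T` of elements `e ≠ st` (`Finset.induction_on`, then `T = univ.erase st`) one
finds `x'`, `y` with `Alt2 x'`, `Alt3 y`, `bd2 x' = 0`, `x = x' + bd3 y`, and for all `e ∈ T`: `se st e (x' i j) = x' i j`
and `∑ i, C (lam e i) * x' i j = 0` (`step2`; `bd3` is additive, sums of alternating functions are alternating).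
Let `ω m i j = coefFun m (x' i j)` and `N` a common bound (`coefFun_bound`, `J` finite).  `Alt2 (ω m)` by additivity
of `coefFun`; `x' i j = ∑ m < N, C (ω m i j) * X st ^ m` by `coef`; `Harm2`: apply `coefFun m` to
`∑ i, C (lam e i) * x' i j = 0` (`coefFun_C_mul`) and use `harm`.
-/

set_option autoImplicit false

namespace GB

open MvPolynomial

theorem DG.KL2_iter {V J E : Type} [Fintype J] (S : DG V J E) (st : E)
    (q : E → J → ℤ) (hq : S.Qdata st q) (T : Finset E) : st ∉ T →
    ∀ x : J → J → MvPolynomial E ℤ, Alt2 x → (∀ j, S.bd2 x j = 0) →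
    ∃ (x' : J → J → MvPolynomial E ℤ) (y : J → J → J → MvPolynomial E ℤ),
      Alt2 x' ∧ Alt3 y ∧ (∀ j, S.bd2 x' j = 0) ∧ (∀ i j, x i j = x' i j + S.bd3 y i j) ∧
      ∀ e ∈ T, (∀ i j, se st e (x' i j) = x' i j) ∧
        (∀ j, ∑ i, C (S.lam e i) * x' i j = 0) := by
  classical
  induction T using Finset.induction_on with
  | empty =>
    intro _ x hx hc
    refine ⟨x, fun _ _ _ => 0, hx, ⟨fun i j k => by simp, fun i j k => by simp⟩, hc,
      fun i j => by simp [DG.bd3], fun e he => by simp at he⟩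
  | insert a T ha ih =>
    intro hst x hx hc
    have hast : a ≠ st := fun hh => hst (by simp [hh])
    have hs : st ∉ T := fun hh => hst (by simp [hh])
    obtain ⟨x₁, y₁, hx₁, hy₁, hc₁, hd₁, hT₁⟩ := ih hs x hx hc
    obtain ⟨x₂, y₂, hx₂, hy₂, hc₂, hd₂, hs₂, hl₂, hT₂⟩ := S.step2 st q hq a hast x₁ hx₁ hc₁
    refine ⟨x₂, fun i j k => y₁ i j k + y₂ i j k, hx₂, ⟨fun i j k => ?_, fun i j k => ?_⟩, hc₂,
      fun i j => ?_, fun e he => ?_⟩
    · simp only [hy₁.1 i j k, hy₂.1 i j k]
      ring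
    · simp only [hy₁.2 i j k, hy₂.2 i j k]
      ring
    · rw [hd₁, hd₂]
      simp only [DG.bd3, mul_add, Finset.sum_add_distrib]
      ring
    · rw [Finset.mem_insert] at he
      rcases he with rfl | he
      · exact ⟨hs₂, hl₂⟩
      · exact hT₂ e (fun hh => hs (hh ▸ he)) (hT₁ e he).1 (hT₁ e he).2

theorem DG.KL2 {V J E : Type} [Fintype J] [Fintype E] (S : DG V J E) (st : E) (q : E → J → ℤ)
    (hq : S.Qdata st q) (x : J → J → MvPolynomial E ℤ) (hx : Alt2 x)
    (hc : ∀ j, S.bd2 x j = 0) :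
    ∃ (y : J → J → J → MvPolynomial E ℤ) (N : ℕ) (ω : ℕ → J → J → ℤ), Alt3 y ∧
      (∀ m, Alt2 (ω m) ∧ S.Harm2 (ω m)) ∧
      ∀ i j, x i j = S.bd3 y i j + ∑ m ∈ Finset.range N, C (ω m i j) * X st ^ m := by
  classical
  obtain ⟨x', y, hx', hy, -, hd, hT⟩ :=
    S.KL2_iter st q hq (Finset.univ.erase st) (by simp) x hx hc
  have hT' : ∀ e, e ≠ st → (∀ i j, se st e (x' i j) = x' i j) ∧
      (∀ j, ∑ i, C (S.lam e i) * x' i j = 0) := fun e he => hT e (by simp [he])
  choose M hM using fun ij : J × J => coefFun_bound (x' ij.1 ij.2)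
  have hneg : ∀ m (p : MvPolynomial E ℤ), coefFun m (-p) = - coefFun m p := by
    intro m p
    have := coefFun_C_mul m (-1) p
    rw [show (C (-1 : ℤ) : MvPolynomial E ℤ) * p = -p by simp] at this
    rw [this]; ring
  have hzero : ∀ m, coefFun m (0 : MvPolynomial E ℤ) = 0 := by
    intro m
    have := coefFun_C_mul m 0 (0 : MvPolynomial E ℤ)
    simpa using this
  have hsum : ∀ m (f : J → MvPolynomial E ℤ), coefFun m (∑ i, f i) = ∑ i, coefFun m (f i) := by
    intro m f
    let φ : MvPolynomial E ℤ →+ ℤ :=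
      { toFun := coefFun m, map_zero' := hzero m, map_add' := coefFun_add m }
    exact map_sum φ f _
  refine ⟨y, ∑ ij : J × J, M ij, fun m i j => coefFun m (x' i j), hy, fun m => ⟨?_, ?_⟩,
    fun i j => ?_⟩
  · intro i j
    change coefFun m (x' j i) = - coefFun m (x' i j)
    rw [hx' i j, hneg]
  · intro j
    apply S.harm st
    intro e he
    have h1 := congrArg (coefFun m) ((hT' e he).2 j)
    rw [hsum, hzero] at h1
    rw [← h1]
    refine Finset.sum_congr rfl fun i _ => ?_
    rw [coefFun_C_mul]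
  · rw [hd i j, add_comm]
    congr 1
    apply DG.coef st (x' i j) (fun e he => (hT' e he).1 i j)
    intro m hm
    refine hM (i, j) m (le_trans ?_ hm)
    exact Finset.single_le_sum (f := M) (fun _ _ => Nat.zero_le _) (Finset.mem_univ (i, j))

end GB
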