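import Pool.Agent.Helper95.GB.KL.Defs

/-! # GB/KL/Ops: divided differences (stub, prove in place)

Let `s = se st e`.  For every polynomial `p` the difference `p - s p` is divisible by `X e - X st` (additive and
multiplicative closure: `p q - s p s q = (p - s p) s q + p (q - s q)`, and it holds for constants and variables;
`MvPolynomial.induction_on`).  `MvPolynomial E ℤ` is a domain and `X e - X st ≠ 0`, so the quotient `D p` is unique;
`D` is additive, `D (p * q) = D p * s q + p * D q`, `D (X e') = if e' = e then 1 else 0` by cancellation.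
`D_th`: `D (S.th k) = C (S.lam e k)`.
-/

set_option autoImplicit false

namespace GB

open MvPolynomial

namespace DG

variable {V J E : Type} (S : DG V J E)

private lemma se_X_self (st e : E) : se st e (X e) = X st := by
  classical
  simp [se]

private lemma se_X_ne (st e e' : E) (h : e' ≠ e) : se st e (X e') = X e' := by
  classical
  simp [se, h]

private lemma se_C (st e : E) (n : ℤ) : se st e (C n) = C n := by
  rw [← MvPolynomial.algebraMap_eq]
  exact AlgHom.commutes _ _

private lemma dvd_sub (st e : E) (p : MvPolynomial E ℤ) : (X e - X st) ∣ p - se st e p := by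
  induction p using MvPolynomial.induction_on with
  | C n => rw [se_C, sub_self]; exact dvd_zero _
  | add p q hp hq =>
    have h : p + q - se st e (p + q) = (p - se st e p) + (q - se st e q) := by
      rw [map_add]; ring
    rw [h]
    exact dvd_add hp hq
  | mul_X p e' hp =>
    have h : p * X e' - se st e (p * X e')
        = (p - se st e p) * se st e (X e') + p * (X e' - se st e (X e')) := by
      rw [map_mul]; ring
    rw [h]
    refine dvd_add (dvd_mul_of_dvd_left hp _) (dvd_mul_of_dvd_right ?_ _)
    by_cases he : e' = e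
    · rw [he, se_X_self]
    · rw [se_X_ne _ _ _ he, sub_self]
      exact dvd_zero _

/-- There is an additive operator `D` with the properties of the divided difference. -/
theorem exists_D (st e : E) (h : e ≠ st) :
    ∃ D : MvPolynomial E ℤ →+ MvPolynomial E ℤ,
      (∀ p, p - se st e p = (X e - X st) * D p) ∧
      (∀ p q, D (p * q) = D p * se st e q + p * D q) ∧
      (∀ n : ℤ, ∀ p, D (C n * p) = C n * D p) ∧
      (∀ k, D (S.th k) = C (S.lam e k)) := by
  classical
  have hne : (X e - X st : MvPolynomial E ℤ) ≠ 0 := by
    rw [sub_ne_zero]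
    intro h0
    exact h (MvPolynomial.X_injective h0)
  choose D0 hD0 using dvd_sub st e
  have huniq : ∀ a b : MvPolynomial E ℤ, (X e - X st) * a = (X e - X st) * b → a = b :=
    fun a b hab => mul_left_cancel₀ hne hab
  have hadd : ∀ p q, D0 (p + q) = D0 p + D0 q := by
    intro p q
    apply huniq
    rw [mul_add, ← hD0, ← hD0, ← hD0, map_add]
    ring
  have hmul : ∀ p q, D0 (p * q) = D0 p * se st e q + p * D0 q := by
    intro p q
    apply huniq
    rw [mul_add, ← mul_assoc, ← hD0, ← hD0, mul_left_comm, ← hD0, map_mul]
    ring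
  have hC : ∀ n : ℤ, D0 (C n) = 0 := by
    intro n
    apply huniq
    rw [← hD0, se_C, sub_self, mul_zero]
  have hX : ∀ e' : E, D0 (X e') = C (if e' = e then 1 else 0) := by
    intro e'
    apply huniq
    rw [← hD0]
    by_cases he : e' = e
    · rw [if_pos he, he, se_X_self, C_1, mul_one]
    · rw [if_neg he, se_X_ne _ _ _ he, sub_self, C_0, mul_zero]
  let D : MvPolynomial E ℤ →+ MvPolynomial E ℤ := AddMonoidHom.mk' D0 hadd
  have hDapp : ∀ p, D p = D0 p := fun p => rfl
  refine ⟨D, ?_, ?_, ?_, ?_⟩
  · intro p; exact hD0 p
  · intro p q; exact hmul p q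
  · intro n p
    rw [hDapp, hDapp, hmul, hC, zero_mul, zero_add]
  · intro k
    rw [th, map_sub, hDapp, hDapp, hX, hX, ← C_sub]
    congr 1

theorem se_comm (st e e' : E) (h : e ≠ st) (h' : e' ≠ st) (p : MvPolynomial E ℤ) :
    se st e (se st e' p) = se st e' (se st e p) := by
  have h1 : (se st e).comp (se st e') = (se st e').comp (se st e) := by
    apply MvPolynomial.algHom_ext
    intro x
    rw [AlgHom.comp_apply, AlgHom.comp_apply]
    by_cases hx : x = e
    · by_cases hx' : x = e'
      · subst hx
        subst hx'
        rfl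
      · rw [se_X_ne _ _ _ hx', hx, se_X_self, se_X_ne _ _ _ (Ne.symm h')]
    · by_cases hx' : x = e'
      · rw [se_X_ne st e x hx, hx', se_X_self, se_X_ne _ _ _ (Ne.symm h)]
      · rw [se_X_ne st e x hx, se_X_ne st e' x hx', se_X_ne st e x hx]
  exact DFunLike.congr_fun h1 p

theorem se_idem (st e : E) (h : e ≠ st) (p : MvPolynomial E ℤ) :
    se st e (se st e p) = se st e p := by
  have h1 : (se st e).comp (se st e) = se st e := by
    apply MvPolynomial.algHom_ext
    intro x
    rw [AlgHom.comp_apply]
    by_cases hx : x = e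
    · rw [hx, se_X_self, se_X_ne _ _ _ (Ne.symm h)]
    · rw [se_X_ne st e x hx, se_X_ne st e x hx]
  exact DFunLike.congr_fun h1 p

/-- pairing of the contraction covector with a chain of boundary `e' - st` -/
theorem lam_q [Fintype J] (st : E) (q : E → J → ℤ) (hq : S.Qdata st q) (e e' : E) (h : e ≠ st) :
    ∑ k, S.lam e k * q e' k = (by classical exact if e' = e then 1 else 0) := by
  classical
  have h1 := hq.2 e' (fun x => if x = e then 1 else 0)
  simp only [if_neg (Ne.symm h), sub_zero] at h1
  have h2 : ∀ k, S.lam e k * q e' k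
      = q e' k * ((if S.ed k = e then 1 else 0) - (if S.be (S.vt k) = e then 1 else 0)) := by
    intro k
    rw [mul_comm]
    congr 1
  rw [Finset.sum_congr rfl (fun k _ => h2 k), h1]

theorem th_q [Fintype J] (st : E) (q : E → J → ℤ) (hq : S.Qdata st q) (e : E) :
    ∑ k, S.th k * C (q e k) = X e - X st := by
  ext m
  rw [MvPolynomial.coeff_sum, MvPolynomial.coeff_sub]
  rw [← hq.2 e (fun x => MvPolynomial.coeff m (X x))]
  apply Finset.sum_congr rfl
  intro k _
  rw [mul_comm, MvPolynomial.coeff_C_mul, th, MvPolynomial.coeff_sub]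

end DG

end GB
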