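import Pool.Agent.Helper95.GB.KL.Ops

/-! # GB/KL/Step2: one step of the Koszul homotopy in degree 2 (stub, prove in place)

Write `s = se st e`, `D` from `exists_D`, `q = q e` (integers, multiply by `C (q k)`), `λ = lam e`.
Put `y i j k = q i * D (x j k) - q j * D (x i k) + q k * D (x i j)` (alternating since `x` is),
`w k = ∑ i, λ i * s (x i k)` and `x' i j = s (x i j) - (q i * w j - q j * w i)`.

(1) `bd3 y j k = ∑ i, θ i * y i j k = (X e - X st) * D (x j k) - q j * u k + q k * u j` with
`u k = ∑ i, θ i * D (x i k)` (`th_q`).  From `0 = D (bd2 x k) = ∑ i, (D θ_i * s (x i k) + θ_i * D (x i k)) = w k + u k`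
we get `u = - w`; and `(X e - X st) * D (x j k) = x j k - s (x j k)`.  So `x = bd3 y + x'`.
(2) `Alt2 x'` clear.  `bd2 x' = bd2 x - bd2 (bd3 y) = 0` because `∑ j, ∑ i, θ_j θ_i y i j k = 0` by antisymmetry
(`2 * sum = 0`, characteristic zero; or `Finset.sum_comm`).
(3) `s (x' i j) = x' i j` by `se_idem` (`s (C n) = C n`).
(4) `∑ i, λ i * x' i j = w j - (1 * w j - q j * ∑ i, λ i * w i)` by `lam_q`, and
`∑ i, λ i * w i = ∑ i, ∑ k, λ i * λ k * s (x k i) = 0` by antisymmetry.
(5) Let `e' ≠ st`, `s' = se st e'`, `λ' = lam e'` with `s' x = x`, `∑ λ' i * x i j = 0`.  `s' (x' i j) = x' i j` by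
`se_comm` (for `e' = e` this is (3)).  For `e' ≠ e`:
`∑ i, λ' i * x' i j = s (∑ i, λ' i * x i j) - ((∑ λ' i q i) * w j - q j * ∑ i, λ' i * w i)`; the first two terms
vanish (`lam_q` with `e' ≠ e`), and `∑ i, λ' i * w i = ∑ k, λ k * s (∑ i, λ' i * x k i) = 0` (use `Alt2 x`).
For `e' = e` it is (4).
-/

set_option autoImplicit false

namespace GB

open MvPolynomial

theorem sum_antisym2 {J R : Type} [Fintype J] [CommRing R] [NoZeroDivisors R] [CharZero R]
    (a : J → J → R) (h : ∀ k l, a l k = - a k l) : ∑ k, ∑ l, a k l = 0 := by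
  have h1 : ∑ k, ∑ l, a k l = - ∑ k, ∑ l, a k l := by
    conv_lhs => rw [Finset.sum_comm]
    rw [← Finset.sum_neg_distrib]
    refine Finset.sum_congr rfl fun k _ => ?_
    rw [← Finset.sum_neg_distrib]
    exact Finset.sum_congr rfl fun l _ => h k l
  have h2 : (2 : R) * ∑ k, ∑ l, a k l = 0 := by
    linear_combination h1
  rcases mul_eq_zero.mp h2 with h3 | h3
  · exact absurd h3 two_ne_zero
  · exact h3

theorem DG.step2 {V J E : Type} [Fintype J] (S : DG V J E) (st : E) (q : E → J → ℤ)
    (hq : S.Qdata st q) (e : E) (he : e ≠ st) (x : J → J → MvPolynomial E ℤ) (hx : Alt2 x)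
    (hc : ∀ j, S.bd2 x j = 0) :
    ∃ (x' : J → J → MvPolynomial E ℤ) (y : J → J → J → MvPolynomial E ℤ),
      Alt2 x' ∧ Alt3 y ∧ (∀ j, S.bd2 x' j = 0) ∧ (∀ i j, x i j = x' i j + S.bd3 y i j) ∧
      (∀ i j, se st e (x' i j) = x' i j) ∧ (∀ j, ∑ i, C (S.lam e i) * x' i j = 0) ∧
      (∀ e', e' ≠ st → (∀ i j, se st e' (x i j) = x i j) →
        (∀ j, ∑ i, C (S.lam e' i) * x i j = 0) →
        (∀ i j, se st e' (x' i j) = x' i j) ∧ (∀ j, ∑ i, C (S.lam e' i) * x' i j = 0)) := by
  classical
  obtain ⟨D, hD1, hD2, hD3, hD4⟩ := S.exists_D st e he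
  have hx1 : ∀ i j, x j i = - x i j := hx
  have hc' : ∀ j, ∑ k, S.th k * x k j = 0 := fun j => hc j
  have hsC : ∀ (f : E) (n : ℤ), se st f (C n : MvPolynomial E ℤ) = C n := fun f n => by
    simp
  set w : J → MvPolynomial E ℤ := fun k => ∑ i, C (S.lam e i) * se st e (x i k) with hw
  have hDanti1 : ∀ i j, D (x j i) = - D (x i j) := fun i j => by
    rw [hx1 i j, map_neg]
  have hu : ∀ k, ∑ l, S.th l * D (x l k) = - w k := by
    intro k
    have h0 : D (∑ l, S.th l * x l k) = 0 := by rw [hc' k, map_zero]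
    rw [map_sum] at h0
    have h1 : ∑ l, D (S.th l * x l k) = w k + ∑ l, S.th l * D (x l k) := by
      simp only [hw]
      rw [← Finset.sum_add_distrib]
      refine Finset.sum_congr rfl fun l _ => ?_
      rw [hD2, hD4]
    rw [h1] at h0
    linear_combination h0
  have htq := S.th_q st q hq e
  set y : J → J → J → MvPolynomial E ℤ := fun i j k =>
    C (q e i) * D (x j k) - C (q e j) * D (x i k) + C (q e k) * D (x i j) with hy
  set x' : J → J → MvPolynomial E ℤ := fun i j =>
    se st e (x i j) - (C (q e i) * w j - C (q e j) * w i) with hx'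
  have hA3 : Alt3 y := by
    refine ⟨fun i j k => ?_, fun i j k => ?_⟩
    · simp only [hy]
      rw [hDanti1 i j]
      ring
    · simp only [hy]
      rw [hDanti1 j k]
      ring
  have hcyc : ∀ l i j, y l i j = y i j l := by
    intro l i j
    rw [hA3.1 i l j, hA3.2 i j l]
    ring
  have hdec : ∀ i j, x i j = x' i j + S.bd3 y i j := by
    intro i j
    have h1 : S.bd3 y i j =
        (∑ l, S.th l * C (q e l)) * D (x i j) - C (q e i) * (∑ l, S.th l * D (x l j))
          + C (q e j) * (∑ l, S.th l * D (x l i)) := by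
      unfold DG.bd3
      simp only [hy]
      rw [Finset.sum_mul, Finset.mul_sum, Finset.mul_sum,
        ← Finset.sum_sub_distrib, ← Finset.sum_add_distrib]
      refine Finset.sum_congr rfl fun l _ => ?_
      ring
    rw [h1, htq, hu, hu, ← hD1]
    simp only [hx']
    ring
  have hA2 : Alt2 x' := by
    intro i j
    simp only [hx']
    rw [hx1 i j, map_neg]
    ring
  have hclosed : ∀ j, S.bd2 x' j = 0 := by
    intro j
    have h1 : ∑ k, ∑ l, S.th k * (S.th l * y l k j) = 0 := by
      refine sum_antisym2 _ fun k l => ?_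
      rw [hA3.1 k l j]
      ring
    have h2 : S.bd2 x' j =
        ∑ k, S.th k * x k j - ∑ k, ∑ l, S.th k * (S.th l * y l k j) := by
      unfold DG.bd2
      rw [← Finset.sum_sub_distrib]
      refine Finset.sum_congr rfl fun k _ => ?_
      rw [← Finset.mul_sum]
      have h3 := hdec k j
      unfold DG.bd3 at h3
      rw [h3]
      ring
    rw [h2, hc' j, h1, sub_zero]
  have hsw : ∀ f, f ≠ st → (∀ i j, se st f (se st e (x i j)) = se st e (x i j)) →
      ∀ k, se st f (w k) = w k := by
    intro f _ hf k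
    simp only [hw]
    rw [map_sum]
    refine Finset.sum_congr rfl fun i _ => ?_
    rw [map_mul, hsC, hf]
  have hsx' : ∀ f, f ≠ st → (∀ i j, se st f (se st e (x i j)) = se st e (x i j)) →
      ∀ i j, se st f (x' i j) = x' i j := by
    intro f hf0 hf i j
    simp only [hx']
    rw [map_sub, map_sub, map_mul, map_mul, hsC, hsC, hsw f hf0 hf, hsw f hf0 hf, hf]
  have hlamq : ∀ f, f ≠ st → ∑ i, (C (S.lam f i) * C (q e i) : MvPolynomial E ℤ) =
      if e = f then 1 else 0 := by
    intro f hf
    have h1 := S.lam_q st q hq f e hf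
    have h2 : ∑ i, (C (S.lam f i) * C (q e i) : MvPolynomial E ℤ) =
        C (∑ i, S.lam f i * q e i) := by
      rw [map_sum]
      refine Finset.sum_congr rfl fun i _ => ?_
      rw [C_mul]
    rw [h2, h1]
    by_cases hef : e = f
    · simp [hef]
    · simp [hef]
  have hexp : ∀ (a : J → MvPolynomial E ℤ) (j : J), ∑ i, a i * x' i j =
      ∑ i, a i * se st e (x i j) - ((∑ i, a i * C (q e i)) * w j
        - C (q e j) * (∑ i, a i * w i)) := by
    intro a j
    simp only [hx']
    rw [Finset.sum_mul, Finset.mul_sum, ← Finset.sum_sub_distrib,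
      ← Finset.sum_sub_distrib]
    refine Finset.sum_congr rfl fun i _ => ?_
    ring
  have hfour : ∀ j, ∑ i, C (S.lam e i) * x' i j = 0 := by
    intro j
    have hww : ∑ i, C (S.lam e i) * w i = 0 := by
      have h1 : ∑ i, C (S.lam e i) * w i =
          ∑ i, ∑ l, C (S.lam e i) * (C (S.lam e l) * se st e (x l i)) := by
        refine Finset.sum_congr rfl fun i _ => ?_
        simp only [hw]
        rw [Finset.mul_sum]
      rw [h1]
      refine sum_antisym2 _ fun i l => ?_
      rw [hx1 l i, map_neg]
      ring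
    rw [hexp, hlamq e he, hww]
    simp only [hw, if_true]
    ring
  refine ⟨x', y, hA2, hA3, hclosed, hdec, ?_, hfour, ?_⟩
  · exact hsx' e he fun i j => se_idem st e he _
  · intro e' he' hx1' hx2'
    refine ⟨?_, ?_⟩
    · refine hsx' e' he' fun i j => ?_
      rw [se_comm st e' e he' he, hx1']
    · by_cases hee : e = e'
      · subst hee
        exact hfour
      · intro j
        have h1 : ∑ i, C (S.lam e' i) * se st e (x i j) = 0 := by
          have h2 : se st e (∑ i, C (S.lam e' i) * x i j) = 0 := by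
            rw [hx2', map_zero]
          rw [map_sum] at h2
          rw [← h2]
          refine Finset.sum_congr rfl fun i _ => ?_
          rw [map_mul, hsC]
        have hww : ∑ i, C (S.lam e' i) * w i = 0 := by
          have h3 : ∑ i, C (S.lam e' i) * w i =
              ∑ l, C (S.lam e l) * (∑ i, C (S.lam e' i) * se st e (x l i)) := by
            simp only [hw]
            simp only [Finset.mul_sum]
            rw [Finset.sum_comm]
            refine Finset.sum_congr rfl fun l _ => Finset.sum_congr rfl fun i _ => ?_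
            ring
          rw [h3]
          refine Finset.sum_eq_zero fun l _ => ?_
          have h4 : ∑ i, C (S.lam e' i) * se st e (x l i) =
              - se st e (∑ i, C (S.lam e' i) * x i l) := by
            rw [map_sum, ← Finset.sum_neg_distrib]
            refine Finset.sum_congr rfl fun i _ => ?_
            rw [hx1 i l, map_neg, map_mul, hsC]
            ring
          rw [h4, hx2', map_zero, neg_zero, mul_zero]
        rw [hexp, hlamq e' he', h1, hww, if_neg hee]
        ring

end GB
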