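import Pool.Agent.Helper95.GB.KL.Ops

/-! # GB/KL/Step3: one step of the Koszul homotopy in degree 3 (stub, prove in place)

Same as `Step2` in degree 3.  Write `s = se st e`, `D` from `exists_D`, `q = q e`, `λ = lam e`.  Put
`z i j k l = q i * D (x j k l) - q j * D (x i k l) + q k * D (x i j l) - q l * D (x i j k)` (alternating),
`w j k = ∑ i, λ i * s (x i j k)` (antisymmetric) and
`x' i j k = s (x i j k) - (q i * w j k - q j * w i k + q k * w i j)`.

(1) `∑ i, θ_i * z i j k l = (X e - X st) * D (x j k l) - q j * u k l + q k * u j l - q l * u j k`,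
`u j k = ∑ i, θ_i * D (x i j k)`.  From `0 = D (∑ i, θ_i * x i j k) = w j k + u j k` we get `u = - w`; so
`x j k l = ∑ i, θ_i * z i j k l + x' j k l`.
(2) `Alt3 x'`; `∑ i, θ_i * x' i j k = 0` because `∑ j, ∑ i, θ_j θ_i z i j k l = 0` by antisymmetry.
(3) `s (x' i j k) = x' i j k` by `se_idem`.
(4) `∑ i, λ i * x' i j k = w j k - (1 * w j k - q j * ∑ i, λ i * w i k + q k * ∑ i, λ i * w i j) = 0` since
`∑ i, λ i * w i k = ∑ i, ∑ l, λ i λ l s (x l i k) = 0` by antisymmetry.
(5) Let `e' ≠ st`, `λ' = lam e'`, `se st e' x = x`, `∑ λ' i * x i j k = 0`: as in `Step2`, with `lam_q` for `e' ≠ e`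
and `∑ i, λ' i * w i k = ∑ l, λ l * s (∑ i, λ' i * x l i k) = 0`.
-/

set_option autoImplicit false

namespace GB

open MvPolynomial

theorem sum_antisym3 {J R : Type} [Fintype J] [CommRing R] [NoZeroDivisors R] [CharZero R]
    (a : J → J → R) (h : ∀ k l, a l k = - a k l) : ∑ k, ∑ l, a k l = 0 := by
  have h1 : ∑ k, ∑ l, a k l = - ∑ k, ∑ l, a k l := by
    conv_lhs => rw [Finset.sum_comm]
    rw [← Finset.sum_neg_distrib]
    refine Finset.sum_congr rfl fun k _ => ?_
    rw [← Finset.sum_neg_distrib]
    exact Finset.sum_congr rfl fun l _ => h k l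
  have h2 : (2 : R) * ∑ k, ∑ l, a k l = 0 := by
    linear_combination h1
  rcases mul_eq_zero.mp h2 with h3 | h3
  · exact absurd h3 two_ne_zero
  · exact h3

theorem DG.step3 {V J E : Type} [Fintype J] (S : DG V J E) (st : E) (q : E → J → ℤ)
    (hq : S.Qdata st q) (e : E) (he : e ≠ st) (x : J → J → J → MvPolynomial E ℤ) (hx : Alt3 x)
    (hc : ∀ i j, ∑ k, S.th k * x k i j = 0) :
    ∃ (x' : J → J → J → MvPolynomial E ℤ) (z : J → J → J → J → MvPolynomial E ℤ),
      Alt3 x' ∧ Alt4 z ∧ (∀ i j, ∑ k, S.th k * x' k i j = 0) ∧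
      (∀ i j k, x i j k = x' i j k + ∑ l, S.th l * z l i j k) ∧
      (∀ i j k, se st e (x' i j k) = x' i j k) ∧
      (∀ j k, ∑ i, C (S.lam e i) * x' i j k = 0) ∧
      (∀ e', e' ≠ st → (∀ i j k, se st e' (x i j k) = x i j k) →
        (∀ j k, ∑ i, C (S.lam e' i) * x i j k = 0) →
        (∀ i j k, se st e' (x' i j k) = x' i j k) ∧
          (∀ j k, ∑ i, C (S.lam e' i) * x' i j k = 0)) := by
  classical
  obtain ⟨D, hD1, hD2, hD3, hD4⟩ := S.exists_D st e he
  obtain ⟨hx1, hx2⟩ := hx
  have hsC : ∀ (f : E) (n : ℤ), se st f (C n : MvPolynomial E ℤ) = C n := fun f n => by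
    
    simp
  set w : J → J → MvPolynomial E ℤ := fun j k => ∑ i, C (S.lam e i) * se st e (x i j k) with hw
  have hwanti : ∀ j k, w k j = - w j k := by
    intro j k
    simp only [hw]
    rw [← Finset.sum_neg_distrib]
    refine Finset.sum_congr rfl fun i _ => ?_
    rw [hx2 i j k, map_neg]
    ring
  have hDanti1 : ∀ i j k, D (x j i k) = - D (x i j k) := fun i j k => by
    rw [hx1 i j k, map_neg]
  have hDanti2 : ∀ i j k, D (x i k j) = - D (x i j k) := fun i j k => by
    rw [hx2 i j k, map_neg]
  -- u = - w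
  have hu : ∀ j k, ∑ l, S.th l * D (x l j k) = - w j k := by
    intro j k
    have h0 : D (∑ l, S.th l * x l j k) = 0 := by rw [hc j k, map_zero]
    rw [map_sum] at h0
    have h1 : ∑ l, D (S.th l * x l j k) = w j k + ∑ l, S.th l * D (x l j k) := by
      simp only [hw]
      rw [← Finset.sum_add_distrib]
      refine Finset.sum_congr rfl fun l _ => ?_
      rw [hD2, hD4]
    rw [h1] at h0
    linear_combination h0
  have htq := S.th_q st q hq e
  set z : J → J → J → J → MvPolynomial E ℤ := fun i j k l =>
    C (q e i) * D (x j k l) - C (q e j) * D (x i k l) + C (q e k) * D (x i j l)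
      - C (q e l) * D (x i j k) with hz
  set x' : J → J → J → MvPolynomial E ℤ := fun i j k =>
    se st e (x i j k) - (C (q e i) * w j k - C (q e j) * w i k + C (q e k) * w i j) with hx'
  have hdec : ∀ i j k, x i j k = x' i j k + ∑ l, S.th l * z l i j k := by
    intro i j k
    have h1 : ∑ l, S.th l * z l i j k =
        (∑ l, S.th l * C (q e l)) * D (x i j k) - C (q e i) * (∑ l, S.th l * D (x l j k))
          + C (q e j) * (∑ l, S.th l * D (x l i k)) - C (q e k) * (∑ l, S.th l * D (x l i j)) := by
      simp only [hz]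
      rw [Finset.sum_mul, Finset.mul_sum, Finset.mul_sum, Finset.mul_sum,
        ← Finset.sum_sub_distrib, ← Finset.sum_add_distrib, ← Finset.sum_sub_distrib]
      refine Finset.sum_congr rfl fun l _ => ?_
      ring
    rw [h1, htq, hu, hu, hu, ← hD1]
    simp only [hx']
    ring
  have hA3 : Alt3 x' := by
    refine ⟨fun i j k => ?_, fun i j k => ?_⟩
    · simp only [hx']
      rw [hx1 i j k, map_neg, hwanti i j]
      ring
    · simp only [hx']
      rw [hx2 i j k, map_neg, hwanti j k]
      ring
  have hA4 : Alt4 z := by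
    refine ⟨fun i j k l => ?_, fun i j k l => ?_, fun i j k l => ?_⟩
    · simp only [hz]
      rw [hDanti1 i j l, hDanti1 i j k]
      ring
    · simp only [hz]
      rw [hDanti1 j k l, hDanti2 i j k]
      ring
    · simp only [hz]
      rw [hDanti2 j k l, hDanti2 i k l]
      ring
  have hclosed : ∀ i j, ∑ k, S.th k * x' k i j = 0 := by
    intro i j
    have h1 : ∑ k, ∑ l, S.th k * (S.th l * z l k i j) = 0 := by
      refine sum_antisym3 _ fun k l => ?_
      rw [hA4.1 k l i j]
      ring
    have h2 : ∑ k, S.th k * x' k i j =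
        ∑ k, S.th k * x k i j - ∑ k, ∑ l, S.th k * (S.th l * z l k i j) := by
      rw [← Finset.sum_sub_distrib]
      refine Finset.sum_congr rfl fun k _ => ?_
      rw [← Finset.mul_sum]
      rw [hdec k i j]
      ring
    rw [h2, hc i j, h1, sub_zero]
  have hsw : ∀ f, f ≠ st → (∀ i j k, se st f (se st e (x i j k)) = se st e (x i j k)) →
      ∀ j k, se st f (w j k) = w j k := by
    intro f _ hf j k
    simp only [hw]
    rw [map_sum]
    refine Finset.sum_congr rfl fun i _ => ?_
    rw [map_mul, hsC, hf]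
  have hsx' : ∀ f, f ≠ st → (∀ i j k, se st f (se st e (x i j k)) = se st e (x i j k)) →
      ∀ i j k, se st f (x' i j k) = x' i j k := by
    intro f hf0 hf i j k
    simp only [hx']
    rw [map_sub, map_add, map_sub, map_mul, map_mul, map_mul, hsC, hsC, hsC, hsw f hf0 hf,
      hsw f hf0 hf, hsw f hf0 hf, hf]
  have hlamq : ∀ f, f ≠ st → ∑ i, (C (S.lam f i) * C (q e i) : MvPolynomial E ℤ) =
      if e = f then 1 else 0 := by
    intro f hf
    have h1 := S.lam_q st q hq f e hf
    have h2 : ∑ i, (C (S.lam f i) * C (q e i) : MvPolynomial E ℤ) =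
        C (∑ i, S.lam f i * q e i) := by
      rw [map_sum]
      refine Finset.sum_congr rfl fun i _ => ?_
      rw [C_mul]
    rw [h2, h1]
    by_cases hef : e = f
    · simp [hef]
    · simp [hef]
  have hexp : ∀ (a : J → MvPolynomial E ℤ) (j k : J), ∑ i, a i * x' i j k =
      ∑ i, a i * se st e (x i j k) - ((∑ i, a i * C (q e i)) * w j k
        - C (q e j) * (∑ i, a i * w i k) + C (q e k) * (∑ i, a i * w i j)) := by
    intro a j k
    simp only [hx']
    rw [Finset.sum_mul, Finset.mul_sum, Finset.mul_sum, ← Finset.sum_sub_distrib,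
      ← Finset.sum_add_distrib, ← Finset.sum_sub_distrib]
    refine Finset.sum_congr rfl fun i _ => ?_
    ring
  have hfour : ∀ j k, ∑ i, C (S.lam e i) * x' i j k = 0 := by
    intro j k
    have hww : ∀ k, ∑ i, C (S.lam e i) * w i k = 0 := by
      intro k
      have h1 : ∑ i, C (S.lam e i) * w i k =
          ∑ i, ∑ l, C (S.lam e i) * (C (S.lam e l) * se st e (x l i k)) := by
        refine Finset.sum_congr rfl fun i _ => ?_
        simp only [hw]
        rw [Finset.mul_sum]
      rw [h1]
      refine sum_antisym3 _ fun i l => ?_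
      rw [hx1 l i k, map_neg]
      ring
    rw [hexp, hlamq e he, hww, hww]
    simp only [hw, if_true]
    ring
  refine ⟨x', z, hA3, hA4, hclosed, hdec, ?_, hfour, ?_⟩
  · exact hsx' e he fun i j k => se_idem st e he _
  · intro e' he' hx1' hx2'
    refine ⟨?_, ?_⟩
    · refine hsx' e' he' fun i j k => ?_
      rw [se_comm st e' e he' he, hx1']
    · by_cases hee : e = e'
      · subst hee
        exact hfour
      · intro j k
        have h1 : ∑ i, C (S.lam e' i) * se st e (x i j k) = 0 := by
          have h2 : se st e (∑ i, C (S.lam e' i) * x i j k) = 0 := by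
            rw [hx2', map_zero]
          rw [map_sum] at h2
          rw [← h2]
          refine Finset.sum_congr rfl fun i _ => ?_
          rw [map_mul, hsC]
        have hww : ∀ k, ∑ i, C (S.lam e' i) * w i k = 0 := by
          intro k
          have h3 : ∑ i, C (S.lam e' i) * w i k =
              ∑ l, C (S.lam e l) * (∑ i, C (S.lam e' i) * se st e (x l i k)) := by
            simp only [hw]
            simp only [Finset.mul_sum]
            rw [Finset.sum_comm]
            refine Finset.sum_congr rfl fun l _ => Finset.sum_congr rfl fun i _ => ?_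
            ring
          rw [h3]
          refine Finset.sum_eq_zero fun l _ => ?_
          have h4 : ∑ i, C (S.lam e' i) * se st e (x l i k) =
              - se st e (∑ i, C (S.lam e' i) * x i l k) := by
            rw [map_sum, ← Finset.sum_neg_distrib]
            refine Finset.sum_congr rfl fun i _ => ?_
            rw [hx1 i l k, map_neg, map_mul, hsC]
            ring
          rw [h4, hx2', map_zero, neg_zero, mul_zero]
        rw [hexp, hlamq e' he', h1, hww, hww, if_neg hee]
        ring

end GB
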